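import Mathlib

set_option autoImplicit false

namespace Pool.Agent.Lib.MP_3c695a_lc

open Nat.Partrec (Code)

/-! ### Closure properties of r.e. predicates -/

/-- An r.e. predicate is the projection of a computable one. -/
theorem re_exists {α : Type} [Primcodable α] {p : α → Prop} (hp : REPred p) :
    ∃ f : α → ℕ → Bool, Computable₂ f ∧ ∀ a, p a ↔ ∃ n, f a n = true := by
  obtain ⟨c, hc⟩ := Code.exists_code.1 (Partrec.bind_decode₂_iff.1 hp)
  refine ⟨fun a n => (Code.evaln n c (Encodable.encode a)).isSome, ?_, ?_⟩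
  · have h1 : Primrec fun q : α × ℕ => Code.evaln q.2 c (Encodable.encode q.1) :=
      Code.primrec_evaln.comp
        ((Primrec.snd.pair (Primrec.const c)).pair (Primrec.encode.comp Primrec.fst))
    exact (Primrec.option_isSome.comp h1).to_comp
  · intro a
    have h2 : p a ↔ (Code.eval c (Encodable.encode a)).Dom := by
      rw [hc]
      simp [Part.dom_iff_mem]
    rw [h2, Part.dom_iff_mem]
    constructor
    · rintro ⟨y, hy⟩
      obtain ⟨k, hk⟩ := Code.evaln_complete.1 hy
      exact ⟨k, by rw [Option.mem_def] at hk; simp [hk]⟩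
    · rintro ⟨n, hn⟩
      obtain ⟨y, hy⟩ := Option.isSome_iff_exists.1 hn
      exact ⟨y, Code.evaln_sound hy⟩

/-- A projection of a computable predicate is r.e. -/
theorem exists_re {α : Type} [Primcodable α] {p : α → Prop} (f : α → ℕ → Bool)
    (hf : Computable₂ f) (h : ∀ a, p a ↔ ∃ n, f a n = true) : REPred p := by
  have h1 : Partrec fun a => Nat.rfind fun n => Part.some (f a n) :=
    Partrec.rfind hf.partrec₂
  refine (Partrec.dom_re h1).of_eq fun a => ?_
  rw [h a]
  refine (Nat.rfind_dom (p := fun n => Part.some (f a n))).trans ?_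
  constructor
  · rintro ⟨n, hn, _⟩
    exact ⟨n, by simpa using hn⟩
  · rintro ⟨n, hn⟩
    exact ⟨n, by simpa using hn, fun _ => by simp⟩

theorem re_and {α : Type} [Primcodable α] {p q : α → Prop} (hp : REPred p) (hq : REPred q) :
    REPred fun a => p a ∧ q a := by
  obtain ⟨f, hf, hf'⟩ := re_exists hp
  obtain ⟨g, hg, hg'⟩ := re_exists hq
  refine exists_re (fun a n => (f a n.unpair.1) && (g a n.unpair.2)) ?_ ?_
  · have h1 : Computable fun r : α × ℕ => f r.1 r.2.unpair.1 :=
      hf.comp Computable.fst (Computable.fst.comp (Computable.unpair.comp Computable.snd))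
    have h2 : Computable fun r : α × ℕ => g r.1 r.2.unpair.2 :=
      hg.comp Computable.fst (Computable.snd.comp (Computable.unpair.comp Computable.snd))
    exact (Primrec.and.to_comp).comp h1 h2
  · intro a
    rw [hf', hg']
    constructor
    · rintro ⟨⟨m, hm⟩, ⟨n, hn⟩⟩
      exact ⟨Nat.pair m n, by simp [hm, hn]⟩
    · rintro ⟨n, hn⟩
      rw [Bool.and_eq_true] at hn
      exact ⟨⟨_, hn.1⟩, ⟨_, hn.2⟩⟩

theorem re_or {α : Type} [Primcodable α] {p q : α → Prop} (hp : REPred p) (hq : REPred q) :
    REPred fun a => p a ∨ q a := by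
  obtain ⟨f, hf, hf'⟩ := re_exists hp
  obtain ⟨g, hg, hg'⟩ := re_exists hq
  refine exists_re (fun a n => (f a n) || (g a n)) ?_ ?_
  · have h1 : Computable fun r : α × ℕ => f r.1 r.2 := hf
    have h2 : Computable fun r : α × ℕ => g r.1 r.2 := hg
    exact (Primrec.or.to_comp).comp h1 h2
  · intro a
    rw [hf', hg']
    constructor
    · rintro (⟨m, hm⟩ | ⟨m, hm⟩)
      · exact ⟨m, by simp [hm]⟩
      · exact ⟨m, by simp [hm]⟩
    · rintro ⟨n, hn⟩
      rw [Bool.or_eq_true] at hn
      rcases hn with hn | hn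
      · exact Or.inl ⟨_, hn⟩
      · exact Or.inr ⟨_, hn⟩

theorem re_ex {α : Type} [Primcodable α] {p : α × ℕ → Prop} (hp : REPred p) :
    REPred fun a => ∃ k, p (a, k) := by
  obtain ⟨f, hf, hf'⟩ := re_exists hp
  refine exists_re (fun a n => f (a, n.unpair.1) n.unpair.2) ?_ ?_
  · exact hf.comp (Computable.fst.pair (Computable.fst.comp (Computable.unpair.comp Computable.snd)))
      (Computable.snd.comp (Computable.unpair.comp Computable.snd))
  · intro a
    constructor
    · rintro ⟨k, hk⟩
      obtain ⟨n, hn⟩ := (hf' _).1 hk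
      exact ⟨Nat.pair k n, by simp [hn]⟩
    · rintro ⟨n, hn⟩
      exact ⟨_, (hf' _).2 ⟨_, hn⟩⟩

theorem re_comp {α β : Type} [Primcodable α] [Primcodable β] {p : β → Prop} (hp : REPred p)
    {g : α → β} (hg : Computable g) : REPred fun a => p (g a) :=
  Partrec.comp hp hg

theorem re_of_bool {α : Type} [Primcodable α] {f : α → Bool} (hf : Computable f) :
    REPred fun a => f a = true :=
  exists_re (fun a _ => f a) (hf.comp Computable.fst) fun _ => by simp

/-- Bounded search. -/
def bex (f : ℕ → Bool) (n : ℕ) : Bool := Nat.rec false (fun k acc => acc || f k) n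

theorem bex_iff (f : ℕ → Bool) (n : ℕ) : bex f n = true ↔ ∃ k < n, f k = true := by
  induction n with
  | zero => simp [bex]
  | succ n ih =>
    have h : bex f (n + 1) = (bex f n || f n) := rfl
    rw [h, Bool.or_eq_true, ih]
    constructor
    · rintro (⟨k, hk, h⟩ | h)
      · exact ⟨k, by omega, h⟩
      · exact ⟨n, by omega, h⟩
    · rintro ⟨k, hk, h⟩
      rcases Nat.lt_succ_iff_lt_or_eq.1 hk with h' | h'
      · exact Or.inl ⟨k, h', h⟩
      · exact Or.inr (h' ▸ h)

theorem bex_comp {α : Type} [Primcodable α] {f : α → ℕ → Bool} {n : α → ℕ}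
    (hf : Computable₂ f) (hn : Computable n) : Computable fun a => bex (f a) (n a) := by
  have h : Computable₂ fun (a : α) (p : ℕ × Bool) => p.2 || f a p.1 :=
    (Primrec.or.to_comp).comp (Computable.snd.comp Computable.snd)
      (hf.comp Computable.fst (Computable.fst.comp Computable.snd))
  exact Computable.nat_rec hn (Computable.const false) h

theorem leb_comp : Computable₂ fun a b : ℕ => decide (a ≤ b) :=
  (Primrec.nat_le.decide).to_comp

theorem ltb_comp : Computable₂ fun a b : ℕ => decide (a < b) :=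
  (Primrec.nat_lt.decide).to_comp

theorem eqb_comp : Computable₂ fun a b : ℕ => decide (a = b) :=
  ((Primrec.eq (α := ℕ)).decide).to_comp

/-! ### True stages -/

section TrueStages

variable (q : ℕ → ℕ)

/-- `v` is a true stage of `q`: all later values are larger. -/
def Tr (v : ℕ) : Prop := ∀ t, v < t → q v < q t

theorem exists_last_min (q : ℕ → ℕ) (m n : ℕ) (h : m < n) :
    ∃ v, m ≤ v ∧ v < n ∧ (∀ u, m ≤ u → u < n → q v ≤ q u) ∧ ∀ u, v < u → u < n → q v < q u := by
  induction n, h using Nat.le_induction with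
  | base => exact ⟨m, le_rfl, by omega, fun u _ _ => by
      have : u = m := by omega
      rw [this], fun u _ _ => by omega⟩
  | succ n hn ih =>
    obtain ⟨v, h1, h2, h3, h4⟩ := ih
    rcases Nat.lt_or_ge (q v) (q n) with h | h
    · refine ⟨v, h1, by omega, fun u hu hu' => ?_, fun u hu hu' => ?_⟩
      · rcases Nat.lt_or_ge u n with h5 | h5
        · exact h3 u hu h5
        · have : u = n := by omega
          rw [this]; exact h.le
      · rcases Nat.lt_or_ge u n with h5 | h5
        · exact h4 u hu h5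
        · have : u = n := by omega
          rw [this]; exact h
    · refine ⟨n, by omega, by omega, fun u hu hu' => ?_, fun u hu hu' => by omega⟩
      rcases Nat.lt_or_ge u n with h5 | h5
      · exact h.trans (h3 u hu h5)
      · have : u = n := by omega
        rw [this]

theorem exists_true (hq : ∀ e, ∃ N, ∀ t, N ≤ t → e < q t) (m : ℕ) : ∃ v, m ≤ v ∧ Tr q v := by
  obtain ⟨N, hN⟩ := hq (q m)
  obtain ⟨v, h1, h2, h3, h4⟩ := exists_last_min q m (max N (m + 1)) (by omega)
  refine ⟨v, h1, fun t ht => ?_⟩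
  rcases Nat.lt_or_ge t (max N (m + 1)) with h | h
  · exact h4 t ht h
  · exact (h3 m le_rfl (by omega)).trans_lt (hN t (by omega))

open Classical in
/-- The least true stage at or after `m`. -/
noncomputable def nx (hq : ∀ e, ∃ N, ∀ t, N ≤ t → e < q t) (m : ℕ) : ℕ :=
  Nat.find (exists_true q hq m)

variable {q} (hq : ∀ e, ∃ N, ∀ t, N ≤ t → e < q t)

theorem nx_le (m : ℕ) : m ≤ nx q hq m := by
  classical exact (Nat.find_spec (exists_true q hq m)).1

theorem nx_tr (m : ℕ) : Tr q (nx q hq m) := by
  classical exact (Nat.find_spec (exists_true q hq m)).2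

theorem nx_min {m v : ℕ} (h : m ≤ v) (hv : Tr q v) : nx q hq m ≤ v := by
  classical exact Nat.find_min' (exists_true q hq m) ⟨h, hv⟩

theorem nx_nx (m : ℕ) : nx q hq (nx q hq m) = nx q hq m :=
  le_antisymm (nx_min hq le_rfl (nx_tr hq m)) (nx_le hq _)

/-- Between `m` and the next true stage the values of `q` are at least the value at that stage. -/
theorem q_nx_le {m v : ℕ} (h : m ≤ v) : q (nx q hq m) ≤ q v := by
  rcases lt_trichotomy v (nx q hq m) with h1 | h1 | h1
  · by_contra h2
    push Not at h2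
    obtain ⟨u, u1, u2, u3, u4⟩ := exists_last_min q m (nx q hq m) (by omega)
    have : Tr q u := by
      intro t ht
      have h5 : q u < q (nx q hq m) := (u3 v h h1).trans_lt h2
      rcases lt_trichotomy t (nx q hq m) with h6 | h6 | h6
      · exact u4 t ht h6
      · rw [h6]; exact h5
      · exact h5.trans (nx_tr hq m t h6)
    have := nx_min hq u1 this
    omega
  · rw [h1]
  · exact (nx_tr hq m v h1).le

theorem nx_eq_iff (m m' : ℕ) : nx q hq m = nx q hq m' ↔
    m = m' ∨ ∃ t, max m m' ≤ t ∧ ∀ v < max m m', min m m' ≤ v → q t ≤ q v := by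
  have key : ∀ m m' : ℕ, m < m' → (nx q hq m = nx q hq m' ↔
      ∃ t, m' ≤ t ∧ ∀ v < m', m ≤ v → q t ≤ q v) := by
    intro m m' hm
    constructor
    · intro h
      refine ⟨nx q hq m, h ▸ nx_le hq m', fun v _ hv' => q_nx_le hq hv'⟩
    · rintro ⟨t, ht, h⟩
      apply le_antisymm
      · exact nx_min hq (hm.le.trans (nx_le hq m')) (nx_tr hq m')
      · refine nx_min hq ?_ (nx_tr hq m)
        by_contra h1
        push Not at h1
        have h2 := h _ h1 (nx_le hq m)
        have h3 := nx_tr hq m t (by omega)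
        omega
  rcases lt_trichotomy m m' with h | h | h
  · rw [key m m' h, max_eq_right h.le, min_eq_left h.le]
    simp [h.ne]
  · simp [h]
  · rw [eq_comm, key m' m h, max_eq_left h.le, min_eq_right h.le]
    simp [h.ne']

theorem q_inj_nx {m m' : ℕ} (h : q (nx q hq m) = q (nx q hq m')) : nx q hq m = nx q hq m' := by
  rcases lt_trichotomy (nx q hq m) (nx q hq m') with h1 | h1 | h1
  · have := nx_tr hq m _ h1
    omega
  · exact h1
  · have := nx_tr hq m' _ h1
    omega

theorem nx_re (hc : Computable q) : REPred fun p : ℕ × ℕ => nx q hq p.1 = nx q hq p.2 := by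
  have hmax : Computable fun p : ℕ × ℕ => max p.1 p.2 := (Primrec.nat_max).to_comp
  have hmin : Computable fun p : ℕ × ℕ => min p.1 p.2 := (Primrec.nat_min).to_comp
  -- the bad values of v
  have hbad : Computable₂ fun (x : (ℕ × ℕ) × ℕ) (v : ℕ) =>
      (decide (min x.1.1 x.1.2 ≤ v)) && (decide (q v < q x.2)) := by
    have h1 : Computable fun y : ((ℕ × ℕ) × ℕ) × ℕ => min y.1.1.1 y.1.1.2 :=
      hmin.comp (Computable.fst.comp Computable.fst)
    have h2 : Computable fun y : ((ℕ × ℕ) × ℕ) × ℕ => q y.2 := hc.comp Computable.snd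
    have h3 : Computable fun y : ((ℕ × ℕ) × ℕ) × ℕ => q y.1.2 :=
      hc.comp (Computable.snd.comp Computable.fst)
    exact (Primrec.and.to_comp).comp (leb_comp.comp h1 Computable.snd) (ltb_comp.comp h2 h3)
  have hb : Computable fun x : (ℕ × ℕ) × ℕ =>
      bex (fun v => (decide (min x.1.1 x.1.2 ≤ v)) && (decide (q v < q x.2)))
        (max x.1.1 x.1.2) :=
    bex_comp hbad (hmax.comp Computable.fst)
  have h4 : REPred fun p : ℕ × ℕ => ∃ t, ((decide (max p.1 p.2 ≤ t)) &&
      !(bex (fun v => (decide (min p.1 p.2 ≤ v)) && (decide (q v < q t)))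
        (max p.1 p.2))) = true := by
    refine exists_re (fun p t => (decide (max p.1 p.2 ≤ t)) &&
      !(bex (fun v => (decide (min p.1 p.2 ≤ v)) && (decide (q v < q t)))
        (max p.1 p.2))) ?_ fun _ => Iff.rfl
    exact (Primrec.and.to_comp).comp
      (leb_comp.comp (hmax.comp Computable.fst) Computable.snd) (Primrec.not.to_comp.comp hb)
  have h5 : REPred fun p : ℕ × ℕ => p.1 = p.2 :=
    (Primrec.eq.comp Primrec.fst Primrec.snd).computablePred.to_re
  refine (re_or h5 h4).of_eq fun p => ?_
  rw [nx_eq_iff hq]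
  refine or_congr Iff.rfl (exists_congr fun t => ?_)
  rw [Bool.and_eq_true, decide_eq_true_iff]
  refine and_congr Iff.rfl ?_
  rw [Bool.not_eq_true', Bool.eq_false_iff, ne_eq, bex_iff]
  push Not
  refine forall_congr' fun v => forall_congr' fun _ => ?_
  simp [not_and]

end TrueStages

end Pool.Agent.Lib.MP_3c695a_lc
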