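import Pool.Agent.Lib.MP_3c695a_lc.Univ

set_option autoImplicit false

namespace Pool.Agent.Lib.MP_3c695a_lc

theorem re_changes {X : Set ℕ} (hX : REPred fun y => y ∈ X) {m : ℕ} (hm : 1 ≤ m) :
    ∃ g : ℕ → ℕ → Bool, Computable₂ g ∧ (∀ x, g x 0 = false) ∧
      (∀ x, ∃ s₀, ∀ s, s₀ ≤ s → (g x s = true ↔ x ∈ X)) ∧
      ∀ x, {s | g x (s + 1) ≠ g x s}.encard ≤ m := by
  obtain ⟨f, hf, hf'⟩ := re_exists hX
  refine ⟨fun y s => bex (f y) s, ?_, fun x => rfl, fun x => ?_, fun x => ?_⟩
  · have h1 : Computable₂ fun (p : ℕ × ℕ) (n : ℕ) => f p.1 n :=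
      hf.comp (Computable.fst.comp Computable.fst) Computable.snd
    exact bex_comp h1 Computable.snd
  · by_cases hx : x ∈ X
    · obtain ⟨n, hn⟩ := (hf' x).1 hx
      exact ⟨n + 1, fun s hs => ⟨fun _ => hx, fun _ => (bex_iff _ _).2 ⟨n, by omega, hn⟩⟩⟩
    · refine ⟨0, fun s _ => ⟨fun h => ?_, fun h => absurd h hx⟩⟩
      obtain ⟨n, _, hn⟩ := (bex_iff _ _).1 h
      exact (hf' x).2 ⟨n, hn⟩
  · have h1 : {s | bex (f x) (s + 1) ≠ bex (f x) s}.encard ≤ 1 := by
      rw [Set.encard_le_one_iff]
      have key : ∀ s, bex (f x) (s + 1) ≠ bex (f x) s →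
          bex (f x) s = false ∧ bex (f x) (s + 1) = true := by
        intro s hs
        have h2 : bex (f x) s = true → bex (f x) (s + 1) = true := by
          rw [bex_iff, bex_iff]
          rintro ⟨k, hk, h⟩
          exact ⟨k, by omega, h⟩
        cases h3 : bex (f x) s <;> cases h4 : bex (f x) (s + 1) <;> simp_all
      have mono : ∀ s t, s ≤ t → bex (f x) s = true → bex (f x) t = true := by
        intro s t hst
        rw [bex_iff, bex_iff]
        rintro ⟨k, hk, h⟩
        exact ⟨k, by omega, h⟩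
      intro a b ha hb
      have ha' := key a ha
      have hb' := key b hb
      rcases lt_trichotomy a b with h | h | h
      · have := mono (a + 1) b h ha'.2
        rw [hb'.1] at this
        simp at this
      · exact h
      · have := mono (b + 1) a h hb'.2
        rw [ha'.1] at this
        simp at this
    refine h1.trans ?_
    exact_mod_cast hm

/-- Disjoint sum of `r` and `<`. -/
def rsum (r : ℕ → ℕ → Prop) (u v : ℕ) : Prop :=
  (u % 2 = 0 ∧ v % 2 = 0 ∧ r (u / 2) (v / 2)) ∨ (u % 2 = 1 ∧ v % 2 = 1 ∧ u / 2 < v / 2)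

theorem rsum_wf {r : ℕ → ℕ → Prop} (hwf : WellFounded r) : WellFounded (rsum r) := by
  have h1 : WellFounded (Sum.Lex r (fun a b : ℕ => a < b)) :=
    Sum.lex_wf hwf wellFounded_lt
  refine Subrelation.wf (r := InvImage (Sum.Lex r (fun a b : ℕ => a < b))
    (fun u : ℕ => if u % 2 = 0 then Sum.inl (u / 2) else Sum.inr (u / 2))) ?_ (InvImage.wf _ h1)
  intro u v h
  rcases h with ⟨h1, h2, h3⟩ | ⟨h1, h2, h3⟩
  · simp only [InvImage, h1, h2, if_true]
    exact Sum.Lex.inl h3
  · simp only [InvImage, h1, h2]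
    exact Sum.Lex.inr h3

theorem rsum_re {r : ℕ → ℕ → Prop} (hre : REPred fun p : ℕ × ℕ => r p.1 p.2) :
    REPred fun p : ℕ × ℕ => rsum r p.1 p.2 := by
  have hmod : ∀ {f : ℕ × ℕ → ℕ}, Primrec f → ∀ i : ℕ, REPred fun p : ℕ × ℕ => f p % 2 = i := by
    intro f hf i
    exact (re_of_bool (eqb_comp.comp (Primrec.nat_mod.comp hf (Primrec.const 2)).to_comp
      (Computable.const i))).of_eq fun p => by simp
  have h1 : REPred fun p : ℕ × ℕ => r (p.1 / 2) (p.2 / 2) :=
    re_comp hre (g := fun p : ℕ × ℕ => (p.1 / 2, p.2 / 2))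
      ((Primrec.nat_div.comp Primrec.fst (Primrec.const 2)).to_comp.pair
        (Primrec.nat_div.comp Primrec.snd (Primrec.const 2)).to_comp)
  have h2 : REPred fun p : ℕ × ℕ => p.1 / 2 < p.2 / 2 :=
    (re_of_bool (ltb_comp.comp (Primrec.nat_div.comp Primrec.fst (Primrec.const 2)).to_comp
        (Primrec.nat_div.comp Primrec.snd (Primrec.const 2)).to_comp)).of_eq fun p => by simp
  exact re_or (re_and (hmod Primrec.fst 0) (re_and (hmod Primrec.snd 0) h1))
    (re_and (hmod Primrec.fst 1) (re_and (hmod Primrec.snd 1) h2))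

/-- A bounded number of changes can be paid by a counter. -/
theorem changes_rel {h : ℕ → ℕ} (hh : Computable h) {g : ℕ → ℕ → Bool} (hg : Computable₂ g)
    (hc : ∀ x, {s | g x (s + 1) ≠ g x s}.encard ≤ h x) :
    ∃ o : ℕ → ℕ → ℕ, Computable₂ o ∧
      ∀ x s, (o x (s + 1) = o x s ∧ g x (s + 1) = g x s) ∨ o x (s + 1) < o x s := by
  refine ⟨fun x s => Nat.rec (h x) (fun t acc => cond (g x (t + 1) != g x t) (acc - 1) acc) s,
    ?_, fun x s => ?_⟩
  · have hbne : Computable₂ fun a b : Bool => a != b := (Primrec.dom_bool₂ _).to_comp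
    have h1 : Computable₂ fun (p : ℕ × ℕ) (q : ℕ × ℕ) =>
        cond (g p.1 (q.1 + 1) != g p.1 q.1) (q.2 - 1) q.2 := by
      have hx : Computable fun z : (ℕ × ℕ) × (ℕ × ℕ) => z.1.1 :=
        Computable.fst.comp Computable.fst
      have ht : Computable fun z : (ℕ × ℕ) × (ℕ × ℕ) => z.2.1 :=
        Computable.fst.comp Computable.snd
      have ha : Computable fun z : (ℕ × ℕ) × (ℕ × ℕ) => z.2.2 :=
        Computable.snd.comp Computable.snd
      exact Computable.cond
        (hbne.comp (hg.comp hx (Computable.succ.comp ht)) (hg.comp hx ht))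
        ((Primrec.nat_sub.to_comp).comp ha (Computable.const 1)) ha
    exact Computable.nat_rec Computable.snd (hh.comp Computable.fst) h1
  · set o : ℕ → ℕ := fun s =>
      Nat.rec (h x) (fun t acc => cond (g x (t + 1) != g x t) (acc - 1) acc) s with ho
    have hos : ∀ s, o (s + 1) = cond (g x (s + 1) != g x s) (o s - 1) (o s) := fun s => rfl
    have hcard : ∀ s, o s = h x - ((Finset.range s).filter fun t => g x (t + 1) ≠ g x t).card := by
      intro s
      induction s with
      | zero => simp [ho]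
      | succ s ih =>
        rw [hos, ih, Finset.range_add_one, Finset.filter_insert]
        by_cases h1 : g x (s + 1) = g x s
        · simp [h1]
        · have h2 : (g x (s + 1) != g x s) = true := by simpa using h1
          rw [h2, if_pos h1, Finset.card_insert_of_notMem (by simp)]
          simp only [cond_true]
          omega
    by_cases h1 : g x (s + 1) = g x s
    · left
      refine ⟨?_, h1⟩
      show o (s + 1) = o s
      rw [hos]
      simp [h1]
    · right
      show o (s + 1) < o s
      have h2 : (g x (s + 1) != g x s) = true := by simpa using h1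
      rw [hos, h2]
      simp only [cond_true]
      have h3 : ((Finset.range (s + 1)).filter fun t => g x (t + 1) ≠ g x t).card ≤ h x := by
        have h4 : (((Finset.range (s + 1)).filter fun t => g x (t + 1) ≠ g x t : Finset ℕ) :
            Set ℕ).encard ≤ {s | g x (s + 1) ≠ g x s}.encard := by
          apply Set.encard_le_encard
          intro t ht
          have := (Finset.mem_filter.1 (Finset.mem_coe.1 ht)).2
          exact this
        rw [Set.encard_coe_eq_coe_finsetCard] at h4
        exact_mod_cast h4.trans (hc x)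
      rw [Finset.range_add_one, Finset.filter_insert, if_pos h1,
        Finset.card_insert_of_notMem (by simp)] at h3
      have h5 := hcard s
      omega

end Pool.Agent.Lib.MP_3c695a_lc
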