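import Pool.Agent.Lib.MP_3c695a_lc.Basic

set_option autoImplicit false

namespace Pool.Agent.Lib.MP_3c695a_lc

/-- A uniformly computable family of approximations, each of which settles. -/
structure Appr (G : ℕ → ℕ → ℕ → Bool) : Prop where
  comp : Computable fun p : ℕ × ℕ × ℕ => G p.1 p.2.1 p.2.2
  conv : ∀ e y, ∃ s₀, ∀ s, s₀ ≤ s → G e y s = G e y s₀

section

variable (G : ℕ → ℕ → ℕ → Bool)

/-- The observed bit: does opponent `e` at stage `t` put the witness `2⟨e,a⟩` into his set number `a`? -/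
def obs (e a t : ℕ) : Bool := G e (Nat.pair (2 * Nat.pair e a) a) t

/-- Opponent `e` changes his mind about one of his first `e + 2` witnesses at stage `t`. -/
def trg (e t : ℕ) : Bool := bex (fun a => obs G e a t != obs G e a (t - 1)) (e + 2)

/-- The priority of stage `t`. -/
def q (t : ℕ) : ℕ :=
  Nat.find (p := fun e => e = t ∨ trg G e t = true) ⟨t, Or.inl rfl⟩

variable {G}

theorem q_le_of_trg {e t : ℕ} (h : trg G e t = true) : q G t ≤ e :=
  Nat.find_min' _ (Or.inr h)

theorem q_spec (t : ℕ) : q G t = t ∨ trg G (q G t) t = true :=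
  Nat.find_spec (p := fun e => e = t ∨ trg G e t = true) ⟨t, Or.inl rfl⟩

theorem obs_conv (hG : Appr G) (e a : ℕ) :
    ∃ s₀, ∀ s, s₀ ≤ s → obs G e a s = obs G e a s₀ := hG.conv e _

theorem trg_fin (hG : Appr G) (e : ℕ) : ∃ N, ∀ t, N ≤ t → trg G e t = false := by
  choose s hs using obs_conv hG e
  refine ⟨(Finset.range (e + 2)).sup s + 1, fun t ht => ?_⟩
  rw [Bool.eq_false_iff, ne_eq, trg, bex_iff]
  rintro ⟨a, ha, h⟩
  have h1 : s a ≤ (Finset.range (e + 2)).sup s := Finset.le_sup (Finset.mem_range.2 ha)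
  rw [hs a t (by omega), hs a (t - 1) (by omega)] at h
  simp at h

theorem q_fin (hG : Appr G) (e : ℕ) : ∃ N, ∀ t, N ≤ t → e < q G t := by
  choose N hN using trg_fin hG
  refine ⟨(Finset.range (e + 1)).sup N + e + 1, fun t ht => ?_⟩
  by_contra h
  push Not at h
  rcases q_spec (G := G) t with h1 | h1
  · omega
  · have h2 : N (q G t) ≤ (Finset.range (e + 1)).sup N :=
      Finset.le_sup (Finset.mem_range.2 (by omega))
    rw [hN _ t (by omega)] at h1
    simp at h1

theorem obs_comp (hG : Appr G) : Computable fun p : (ℕ × ℕ) × ℕ => obs G p.1.1 p.1.2 p.2 := by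
  have h1 : Computable fun p : (ℕ × ℕ) × ℕ => p.1.1 := Computable.fst.comp Computable.fst
  have h2 : Computable fun p : (ℕ × ℕ) × ℕ => p.1.2 := Computable.snd.comp Computable.fst
  have h3 : Computable fun p : (ℕ × ℕ) × ℕ => 2 * Nat.pair p.1.1 p.1.2 :=
    (Primrec.nat_mul.to_comp).comp (Computable.const 2) (Primrec₂.natPair.to_comp.comp h1 h2)
  have h4 : Computable fun p : (ℕ × ℕ) × ℕ => Nat.pair (2 * Nat.pair p.1.1 p.1.2) p.1.2 :=
    Primrec₂.natPair.to_comp.comp h3 h2
  have h5 : Computable fun p : (ℕ × ℕ) × ℕ =>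
      (p.1.1, (Nat.pair (2 * Nat.pair p.1.1 p.1.2) p.1.2, p.2)) :=
    h1.pair (h4.pair Computable.snd)
  exact (Computable.comp (f := fun p : ℕ × ℕ × ℕ => G p.1 p.2.1 p.2.2)
    (g := fun p : (ℕ × ℕ) × ℕ => (p.1.1, (Nat.pair (2 * Nat.pair p.1.1 p.1.2) p.1.2, p.2)))
    hG.comp h5).of_eq fun p => rfl

theorem trg_comp (hG : Appr G) : Computable₂ fun e t : ℕ => trg G e t := by
  have hbne : Computable₂ fun a b : Bool => a != b := (Primrec.dom_bool₂ _).to_comp
  have h : Computable₂ fun (p : ℕ × ℕ) (a : ℕ) => obs G p.1 a p.2 != obs G p.1 a (p.2 - 1) := by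
    refine hbne.comp ?_ ?_
    · have h5 : Computable fun r : (ℕ × ℕ) × ℕ => ((r.1.1, r.2), r.1.2) :=
        ((Computable.fst.comp Computable.fst).pair Computable.snd).pair
          (Computable.snd.comp Computable.fst)
      exact (Computable.comp (f := fun p : (ℕ × ℕ) × ℕ => obs G p.1.1 p.1.2 p.2)
        (g := fun r : (ℕ × ℕ) × ℕ => ((r.1.1, r.2), r.1.2)) (obs_comp hG) h5).of_eq fun p => rfl
    · have h5 : Computable fun r : (ℕ × ℕ) × ℕ => ((r.1.1, r.2), r.1.2 - 1) :=
        ((Computable.fst.comp Computable.fst).pair Computable.snd).pair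
          ((Primrec.nat_sub.to_comp).comp (Computable.snd.comp Computable.fst) (Computable.const 1))
      exact (Computable.comp (f := fun p : (ℕ × ℕ) × ℕ => obs G p.1.1 p.1.2 p.2)
        (g := fun r : (ℕ × ℕ) × ℕ => ((r.1.1, r.2), r.1.2 - 1)) (obs_comp hG) h5).of_eq
          fun p => rfl
  have hn : Computable fun p : ℕ × ℕ => p.1 + 2 :=
    (Primrec.nat_add.to_comp).comp Computable.fst (Computable.const 2)
  exact (bex_comp h hn).of_eq fun p => rfl

theorem q_comp (hG : Appr G) : Computable (q G) := by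
  have h : ComputablePred fun p : ℕ × ℕ => (p.2 = p.1 ∨ trg G p.2 p.1 = true) := by
    refine Computable.computablePred ?_
    have h1 : Computable fun p : ℕ × ℕ => (decide (p.2 = p.1)) || trg G p.2 p.1 :=
      (Primrec.or.to_comp).comp (eqb_comp.comp Computable.snd Computable.fst)
        ((trg_comp hG).comp Computable.snd Computable.fst)
    refine h1.of_eq fun p => ?_
    by_cases h2 : p.2 = p.1 <;> by_cases h3 : trg G p.2 p.1 = true <;> simp [h2, h3]
  have h2 := Computable.find (P := fun t e => (e = t ∨ trg G e t = true)) h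
    (fun t => ⟨t, Or.inl rfl⟩)
  exact h2.of_eq fun t => rfl

variable (hG : Appr G)

/-- The last element of the block of `m`. -/
noncomputable def nb (m : ℕ) : ℕ := nx (q G) (q_fin hG) m

/-- The numbering. -/
def S (m : ℕ) : Set ℕ :=
  {x | (x % 2 = 1 ∧ nb hG (x / 2) = nb hG m) ∨
    (x % 2 = 0 ∧ ∃ m', nb hG m' = nb hG m ∧ obs G (x / 2).unpair.1 (x / 2).unpair.2 m' = false)}

theorem mem_odd (m j : ℕ) : 2 * j + 1 ∈ S hG m ↔ nb hG j = nb hG m := by
  have h1 : (2 * j + 1) % 2 = 1 := by omega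
  have h2 : (2 * j + 1) / 2 = j := by omega
  simp [S, h1, h2]

theorem mem_even (m e a : ℕ) : 2 * Nat.pair e a ∈ S hG m ↔
    ∃ m', nb hG m' = nb hG m ∧ obs G e a m' = false := by
  have h1 : (2 * Nat.pair e a) % 2 = 0 := by omega
  have h2 : (2 * Nat.pair e a) / 2 = Nat.pair e a := by omega
  simp [S, h1, h2]

theorem S_eq_iff (m m' : ℕ) : S hG m = S hG m' ↔ nb hG m = nb hG m' := by
  constructor
  · intro h
    have h1 : 2 * m + 1 ∈ S hG m := (mem_odd hG m m).2 rfl
    rw [h] at h1
    exact (mem_odd hG m' m).1 h1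
  · intro h
    unfold S
    rw [h]

theorem S_infinite : (Set.range (S hG)).Infinite := by
  have h1 : (Set.range (nb hG)).Infinite := by
    rw [Set.infinite_iff_exists_gt]
    exact fun a => ⟨nb hG (a + 1), ⟨_, rfl⟩, nx_le (q_fin hG) (a + 1)⟩
  intro h2
  apply h1
  have h3 : ∃ f : Set ℕ → ℕ, ∀ m, f (S hG m) = nb hG m := by
    classical
    refine ⟨fun X => if h : ∃ m, S hG m = X then nb hG h.choose else 0, fun m => ?_⟩
    have h : ∃ m', S hG m' = S hG m := ⟨m, rfl⟩
    have h4 : (if h : ∃ m', S hG m' = S hG m then nb hG h.choose else 0) = nb hG m := by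
      rw [dif_pos h]
      exact (S_eq_iff hG _ _).1 h.choose_spec
    exact h4
  obtain ⟨f, hf⟩ := h3
  refine (h2.image f).subset ?_
  rintro _ ⟨m, rfl⟩
  exact ⟨S hG m, ⟨m, rfl⟩, hf m⟩

theorem nb_re : REPred fun p : ℕ × ℕ => nb hG p.1 = nb hG p.2 := nx_re (q_fin hG) (q_comp hG)

theorem S_re : REPred fun p : ℕ × ℕ => p.2 ∈ S hG p.1 := by
  have hmod : Computable fun p : ℕ × ℕ => p.2 % 2 :=
    (Primrec.nat_mod.comp Primrec.snd (Primrec.const 2)).to_comp
  have hdiv : Computable fun p : ℕ × ℕ => p.2 / 2 :=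
    (Primrec.nat_div.comp Primrec.snd (Primrec.const 2)).to_comp
  have h1 : REPred fun p : ℕ × ℕ => p.2 % 2 = 1 :=
    (re_of_bool (eqb_comp.comp hmod (Computable.const 1))).of_eq fun p => by simp
  have h0 : REPred fun p : ℕ × ℕ => p.2 % 2 = 0 :=
    (re_of_bool (eqb_comp.comp hmod (Computable.const 0))).of_eq fun p => by simp
  have h2 : REPred fun p : ℕ × ℕ => nb hG (p.2 / 2) = nb hG p.1 :=
    re_comp (nb_re hG) (g := fun p : ℕ × ℕ => (p.2 / 2, p.1)) (hdiv.pair Computable.fst)
  have h3 : REPred fun x : (ℕ × ℕ) × ℕ => nb hG x.2 = nb hG x.1.1 :=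
    re_comp (nb_re hG) (g := fun x : (ℕ × ℕ) × ℕ => (x.2, x.1.1))
      (Computable.snd.pair (Computable.fst.comp Computable.fst))
  have hu : Computable fun x : (ℕ × ℕ) × ℕ => (x.1.2 / 2).unpair :=
    Computable.unpair.comp (hdiv.comp Computable.fst)
  have h4 : Computable fun x : (ℕ × ℕ) × ℕ =>
      !(obs G (x.1.2 / 2).unpair.1 (x.1.2 / 2).unpair.2 x.2) :=
    Primrec.not.to_comp.comp ((obs_comp hG).comp
      (((Computable.fst.comp hu).pair (Computable.snd.comp hu)).pair Computable.snd))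
  have h5 : REPred fun x : (ℕ × ℕ) × ℕ => nb hG x.2 = nb hG x.1.1 ∧
      obs G (x.1.2 / 2).unpair.1 (x.1.2 / 2).unpair.2 x.2 = false :=
    re_and h3 ((re_of_bool h4).of_eq fun x => by simp)
  exact re_or (re_and h1 h2) (re_and h0 (re_ex h5))

theorem theta_re : REPred fun p : ℕ × ℕ => S hG p.1 = S hG p.2 :=
  (nb_re hG).of_eq fun _ => (S_eq_iff hG _ _).symm

/-- No one-to-one numbering of the family is the limit of one of the approximations. -/
theorem no_injective (β : ℕ → Set ℕ) (hr : Set.range β = Set.range (S hG))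
    (hi : Function.Injective β) (e : ℕ)
    (h : ∀ x a, ∃ s₀, ∀ s, s₀ ≤ s → (G e (Nat.pair x a) s = true ↔ x ∈ β a)) : False := by
  have h1 : ∀ a, ∃ m, S hG m = β a := fun a => by
    have : β a ∈ Set.range (S hG) := by rw [← hr]; exact ⟨a, rfl⟩
    exact this
  choose m hm using h1
  -- pigeonhole
  have h2 : ∃ a < e + 2, e < q G (nb hG (m a)) := by
    by_contra h3
    push Not at h3
    have h4 : Set.InjOn (fun a => q G (nb hG (m a))) (Finset.range (e + 2) : Set ℕ) := by
      intro a _ b _ hab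
      have h5 : nb hG (m a) = nb hG (m b) := q_inj_nx (q_fin hG) hab
      have h6 := (S_eq_iff hG _ _).2 h5
      rw [hm, hm] at h6
      exact hi h6
    have h5 : Set.MapsTo (fun a => q G (nb hG (m a))) (Finset.range (e + 2) : Set ℕ)
        (Finset.range (e + 1) : Set ℕ) := by
      intro a ha
      have := h3 a (by simpa using ha)
      simp only [Finset.coe_range, Set.mem_Iio]
      omega
    have h6 := Finset.card_le_card_of_injOn _ h5 h4
    simp at h6
  obtain ⟨a, ha, hea⟩ := h2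
  -- no change after the beginning of the block
  have h4 : ∀ m', nb hG m' = nb hG (m a) → ∀ t, m' ≤ t → obs G e a t = obs G e a m' := by
    intro m' hm' t ht
    induction t, ht using Nat.le_induction with
    | base => rfl
    | succ t ht ih =>
      rw [← ih]
      by_contra h5
      have h6 : trg G e (t + 1) = true := by
        rw [trg, bex_iff]
        exact ⟨a, ha, by simpa using h5⟩
      have h7 := q_le_of_trg h6
      have h8 : q G (nb hG m') ≤ q G (t + 1) := q_nx_le (q_fin hG) (by omega)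
      rw [hm'] at h8
      omega
  obtain ⟨s₀, hs₀⟩ := h (2 * Nat.pair e a) a
  set v := nb hG (m a) with hv
  have hb : ∀ m', nb hG m' = v → obs G e a m' = obs G e a v := by
    intro m' hm'
    have h5 : m' ≤ v := by rw [← hm']; exact nx_le (q_fin hG) m'
    exact (h4 m' hm' v h5).symm
  have hvv : nb hG v = v := nx_nx (q_fin hG) (m a)
  have hlim : obs G e a (max s₀ v) = obs G e a v := h4 v hvv _ (le_max_right _ _)
  have h6 : obs G e a (max s₀ v) = true ↔ 2 * Nat.pair e a ∈ β a := hs₀ _ (le_max_left _ _)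
  rw [hlim, ← hm a, mem_even] at h6
  cases hbv : obs G e a v with
  | true =>
    rw [hbv] at h6
    obtain ⟨m', h7, h8⟩ := h6.1 rfl
    rw [hb m' h7, hbv] at h8
    simp at h8
  | false =>
    rw [hbv] at h6
    have := h6.2 ⟨m a, rfl, by rw [hb _ rfl, hbv]⟩
    simp at this

end

end Pool.Agent.Lib.MP_3c695a_lc
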