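import Pool.Agent.Lib.MP_3c695a_lc.Family

set_option autoImplicit false

namespace Pool.Agent.Lib.MP_3c695a_lc

open Nat.Partrec (Code)

/-- The value of program `e` at `(y, t)`, found in `s` steps. -/
def val (e y t s : ℕ) : Option ℕ := Code.evaln s (Denumerable.ofNat Code e) (Nat.pair y t)

theorem val_mono {e y t s s' v : ℕ} (h : s ≤ s') (hv : val e y t s = some v) :
    val e y t s' = some v := Code.evaln_mono h hv

theorem val_comp {α : Type} [Primcodable α] {e y t s : α → ℕ} (he : Computable e)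
    (hy : Computable y) (ht : Computable t) (hs : Computable s) :
    Computable fun a => val (e a) (y a) (t a) (s a) := by
  have h1 : Computable fun a => ((s a, Denumerable.ofNat Code (e a)), Nat.pair (y a) (t a)) :=
    (hs.pair ((Computable.ofNat Code).comp he)).pair (Primrec₂.natPair.to_comp.comp hy ht)
  exact (Computable.comp (f := fun a : (ℕ × Code) × ℕ => Code.evaln a.1.1 a.1.2 a.2)
    Code.primrec_evaln.to_comp h1).of_eq fun a => rfl

section

variable (fr : ℕ × ℕ → ℕ → Bool)

/-- The step from time `t - 1` to time `t` is certified at stage `s`. -/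
def cert (e y t s : ℕ) : Bool :=
  (val e y t s).isSome && ((decide (t = 0)) || ((val e y (t - 1) s).isSome &&
    ((decide ((val e y t s).getD 0 = (val e y (t - 1) s).getD 0)) ||
      bex (fr (((val e y t s).getD 0).unpair.2, ((val e y (t - 1) s).getD 0).unpair.2)) s)))

theorem cert_iff (e y t s : ℕ) : cert fr e y t s = true ↔
    ∃ v, val e y t s = some v ∧ (t = 0 ∨ ∃ v', val e y (t - 1) s = some v' ∧
      (v = v' ∨ ∃ n < s, fr (v.unpair.2, v'.unpair.2) n = true)) := by
  unfold cert
  simp only [Bool.and_eq_true, Bool.or_eq_true, decide_eq_true_iff, bex_iff,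
    Option.isSome_iff_exists]
  constructor
  · rintro ⟨⟨v, hv⟩, h | ⟨⟨v', hv'⟩, h⟩⟩
    · exact ⟨v, hv, Or.inl h⟩
    · rw [hv, hv'] at h
      exact ⟨v, hv, Or.inr ⟨v', hv', h⟩⟩
  · rintro ⟨v, hv, h | ⟨v', hv', h⟩⟩
    · exact ⟨⟨v, hv⟩, Or.inl h⟩
    · refine ⟨⟨v, hv⟩, Or.inr ⟨⟨v', hv'⟩, ?_⟩⟩
      rw [hv, hv']
      exact h

theorem cert_mono {e y t s s' : ℕ} (h : s ≤ s') (hc : cert fr e y t s = true) :
    cert fr e y t s' = true := by
  rw [cert_iff] at hc ⊢
  obtain ⟨v, hv, h1⟩ := hc
  refine ⟨v, val_mono h hv, h1.imp id ?_⟩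
  rintro ⟨v', hv', h2⟩
  refine ⟨v', val_mono h hv', h2.imp id ?_⟩
  rintro ⟨n, hn, h3⟩
  exact ⟨n, by omega, h3⟩

/-- The length of the certified part. -/
def len (e y s : ℕ) : ℕ :=
  Nat.find (p := fun t => s ≤ t ∨ cert fr e y t s = false) ⟨s, Or.inl le_rfl⟩

theorem len_spec (e y s : ℕ) : s ≤ len fr e y s ∨ cert fr e y (len fr e y s) s = false :=
  Nat.find_spec (p := fun t => s ≤ t ∨ cert fr e y t s = false) ⟨s, Or.inl le_rfl⟩

theorem lt_len {e y s t : ℕ} (h : t < len fr e y s) : cert fr e y t s = true := by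
  have h1 := Nat.find_min (p := fun t => s ≤ t ∨ cert fr e y t s = false)
    ⟨s, Or.inl le_rfl⟩ h
  push Not at h1
  simpa using h1.2

theorem len_ge {e y s T : ℕ} (hs : T ≤ s) (h : ∀ t < T, cert fr e y t s = true) :
    T ≤ len fr e y s := by
  by_contra h1
  push Not at h1
  rcases len_spec fr e y s with h2 | h2
  · omega
  · rw [h _ h1] at h2
    simp at h2

theorem len_le {e y s T : ℕ} (h : cert fr e y T s = false) : len fr e y s ≤ T :=
  Nat.find_min' _ (Or.inr h)

/-- The universal approximation. -/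
def GG (e y s : ℕ) : Bool :=
  (decide (0 < len fr e y s)) &&
    (decide (((val e y (len fr e y s - 1) s).getD 0).unpair.1 = 1))

variable (hfr : Computable₂ fr)

include hfr in
theorem cert_comp {α : Type} [Primcodable α] {e y t s : α → ℕ} (he : Computable e)
    (hy : Computable y) (ht : Computable t) (hs : Computable s) :
    Computable fun a => cert fr (e a) (y a) (t a) (s a) := by
  have hv : Computable fun a => val (e a) (y a) (t a) (s a) := val_comp he hy ht hs
  have ht' : Computable fun a => t a - 1 :=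
    (Primrec.nat_sub.to_comp).comp ht (Computable.const 1)
  have hv' : Computable fun a => val (e a) (y a) (t a - 1) (s a) := val_comp he hy ht' hs
  have hg : Computable fun a => (val (e a) (y a) (t a) (s a)).getD 0 :=
    Computable.option_getD hv (Computable.const 0)
  have hg' : Computable fun a => (val (e a) (y a) (t a - 1) (s a)).getD 0 :=
    Computable.option_getD hv' (Computable.const 0)
  have hi : Computable fun a => (val (e a) (y a) (t a) (s a)).isSome :=
    Primrec.option_isSome.to_comp.comp hv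
  have hi' : Computable fun a => (val (e a) (y a) (t a - 1) (s a)).isSome :=
    Primrec.option_isSome.to_comp.comp hv'
  have hp : Computable fun a => (((val (e a) (y a) (t a) (s a)).getD 0).unpair.2,
      ((val (e a) (y a) (t a - 1) (s a)).getD 0).unpair.2) :=
    (Computable.snd.comp (Computable.unpair.comp hg)).pair
      (Computable.snd.comp (Computable.unpair.comp hg'))
  have hf : Computable₂ fun (a : α) (n : ℕ) => fr (((val (e a) (y a) (t a) (s a)).getD 0).unpair.2,
      ((val (e a) (y a) (t a - 1) (s a)).getD 0).unpair.2) n :=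
    hfr.comp (hp.comp Computable.fst) Computable.snd
  have hb := bex_comp hf hs
  have h1 : Computable fun a => (decide (t a = 0)) := eqb_comp.comp ht (Computable.const 0)
  have h2 := eqb_comp.comp hg hg'
  have h3 := (Primrec.or.to_comp).comp h2 hb
  have h4 := (Primrec.and.to_comp).comp hi' h3
  have h5 := (Primrec.or.to_comp).comp h1 h4
  exact ((Primrec.and.to_comp).comp hi h5).of_eq fun a => rfl

include hfr in
theorem len_comp : Computable fun p : ℕ × ℕ × ℕ => len fr p.1 p.2.1 p.2.2 := by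
  have hc : Computable fun x : (ℕ × ℕ × ℕ) × ℕ => cert fr x.1.1 x.1.2.1 x.2 x.1.2.2 :=
    cert_comp fr hfr (Computable.fst.comp Computable.fst)
      (Computable.fst.comp (Computable.snd.comp Computable.fst)) Computable.snd
      (Computable.snd.comp (Computable.snd.comp Computable.fst))
  have hs : Computable fun x : (ℕ × ℕ × ℕ) × ℕ => (decide (x.1.2.2 ≤ x.2)) :=
    leb_comp.comp (Computable.snd.comp (Computable.snd.comp Computable.fst)) Computable.snd
  have h : ComputablePred fun x : (ℕ × ℕ × ℕ) × ℕ =>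
      (x.1.2.2 ≤ x.2 ∨ cert fr x.1.1 x.1.2.1 x.2 x.1.2.2 = false) := by
    refine Computable.computablePred ?_
    have h1 := (Primrec.or.to_comp).comp hs (Primrec.not.to_comp.comp hc)
    refine h1.of_eq fun x => ?_
    by_cases h2 : x.1.2.2 ≤ x.2 <;>
      by_cases h3 : cert fr x.1.1 x.1.2.1 x.2 x.1.2.2 = true <;> simp [h2, h3]
  have h2 := Computable.find
    (P := fun (p : ℕ × ℕ × ℕ) t => (p.2.2 ≤ t ∨ cert fr p.1 p.2.1 t p.2.2 = false)) h
    (fun p => ⟨p.2.2, Or.inl le_rfl⟩)
  exact h2.of_eq fun p => rfl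

include hfr in
theorem GG_comp : Computable fun p : ℕ × ℕ × ℕ => GG fr p.1 p.2.1 p.2.2 := by
  have hl := len_comp fr hfr
  have h1 : Computable fun p : ℕ × ℕ × ℕ => (decide (0 < len fr p.1 p.2.1 p.2.2)) :=
    ltb_comp.comp (Computable.const 0) hl
  have hl' : Computable fun p : ℕ × ℕ × ℕ => len fr p.1 p.2.1 p.2.2 - 1 :=
    (Primrec.nat_sub.to_comp).comp hl (Computable.const 1)
  have hv : Computable fun p : ℕ × ℕ × ℕ => val p.1 p.2.1 (len fr p.1 p.2.1 p.2.2 - 1) p.2.2 :=
    val_comp Computable.fst (Computable.fst.comp Computable.snd) hl'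
      (Computable.snd.comp Computable.snd)
  have hg := Computable.option_getD hv (Computable.const 0)
  have h2 := eqb_comp.comp (Computable.fst.comp (Computable.unpair.comp hg))
    (Computable.const 1)
  exact ((Primrec.and.to_comp).comp h1 h2).of_eq fun p => rfl

/-- A sequence whose every step is trivial or decreases the rank is eventually constant. -/
theorem settle {r : ℕ → ℕ → Prop} (hwf : WellFounded r) (F : ℕ → ℕ) (o : ℕ → ℕ)
    (h : ∀ t, F (t + 1) = F t ∨ r (o (F (t + 1))) (o (F t))) :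
    ∃ T, ∀ t, T ≤ t → F t = F T := by
  obtain ⟨_, ⟨T, rfl⟩, hT⟩ := hwf.has_min (Set.range fun t => o (F t)) ⟨_, ⟨0, rfl⟩⟩
  refine ⟨T, fun t ht => ?_⟩
  induction t, ht using Nat.le_induction with
  | base => rfl
  | succ t _ ih =>
    rcases h t with h1 | h1
    · rw [h1, ih]
    · rw [ih] at h1
      exact absurd h1 (hT _ ⟨t + 1, rfl⟩)

section

variable {fr}
variable {r : ℕ → ℕ → Prop} (hwf : WellFounded r)
  (hr : ∀ p : ℕ × ℕ, r p.1 p.2 ↔ ∃ n, fr p n = true)

include hwf hr

/-- If all times get certified, the approximation settles, at the value at all large times. -/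
theorem GG_full (e y : ℕ) (h : ∀ t, ∃ s, cert fr e y t s = true) :
    ∃ F : ℕ → ℕ, ∃ T, (∀ t, ∃ s, val e y t s = some (F t)) ∧ (∀ t, T ≤ t → F t = F T) ∧
      ∃ s₀, ∀ s, s₀ ≤ s → GG fr e y s = (decide ((F T).unpair.1 = 1)) := by
  choose s hs using h
  have h1 : ∀ t, ∃ v, val e y t (s t) = some v := fun t => by
    obtain ⟨v, hv, _⟩ := (cert_iff fr e y t (s t)).1 (hs t)
    exact ⟨v, hv⟩
  choose F hF using h1
  have huniq : ∀ t s' v, val e y t s' = some v → v = F t := by
    intro t s' v hv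
    have h2 := val_mono (le_max_left s' (s t)) hv
    have h3 := val_mono (le_max_right s' (s t)) (hF t)
    rw [h2] at h3
    exact Option.some.inj h3
  have hstep : ∀ t, F (t + 1) = F t ∨ r (F (t + 1)).unpair.2 (F t).unpair.2 := by
    intro t
    obtain ⟨v, hv, h2⟩ := (cert_iff fr e y (t + 1) (s (t + 1))).1 (hs (t + 1))
    rcases h2 with h2 | ⟨v', hv', h2⟩
    · omega
    · have h3 : t + 1 - 1 = t := by omega
      rw [h3] at hv'
      rw [huniq _ _ _ hv, huniq _ _ _ hv'] at h2
      rcases h2 with h2 | ⟨n, _, h2⟩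
      · exact Or.inl h2
      · exact Or.inr ((hr _).2 ⟨n, h2⟩)
  obtain ⟨T, hT⟩ := settle hwf F (fun v => v.unpair.2) hstep
  refine ⟨F, T, fun t => ⟨_, hF t⟩, hT, (Finset.range (T + 1)).sup s + T + 1, fun s' hs' => ?_⟩
  have h2 : T + 1 ≤ len fr e y s' := by
    refine len_ge fr (by omega) fun t ht => ?_
    have h3 : s t ≤ (Finset.range (T + 1)).sup s := Finset.le_sup (Finset.mem_range.2 ht)
    exact cert_mono fr (by omega) (hs t)
  have h3 : cert fr e y (len fr e y s' - 1) s' = true := lt_len fr (by omega)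
  obtain ⟨v, hv, _⟩ := (cert_iff fr e y _ s').1 h3
  have h4 : v = F T := by
    rw [huniq _ _ _ hv, hT _ (by omega)]
  unfold GG
  rw [hv, Option.getD_some, h4]
  have h5 : 0 < len fr e y s' := by omega
  simp [h5]

theorem GG_conv (e y : ℕ) : ∃ s₀, ∀ s, s₀ ≤ s → GG fr e y s = GG fr e y s₀ := by
  by_cases h : ∀ t, ∃ s, cert fr e y t s = true
  · obtain ⟨F, T, _, _, s₀, hs₀⟩ := GG_full hwf hr e y h
    exact ⟨s₀, fun s hs => by rw [hs₀ s hs, hs₀ s₀ le_rfl]⟩
  · push Not at h
    classical
    have h0 : ∃ t, ∀ s, cert fr e y t s ≠ true := h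
    set T := Nat.find h0 with hT
    have h1 : ∀ s, cert fr e y T s = false := fun s => by
      have h5 := Nat.find_spec h0 s
      rw [← hT] at h5
      simpa using h5
    have h2 : ∀ t, ∃ s, t < T → cert fr e y t s = true := by
      intro t
      by_cases ht : t < T
      · have := Nat.find_min h0 ht
        push Not at this
        obtain ⟨s, hs⟩ := this
        exact ⟨s, fun _ => hs⟩
      · exact ⟨0, fun h' => absurd h' ht⟩
    choose s hs using h2
    have h3 : ∀ s', (Finset.range T).sup s + T ≤ s' → len fr e y s' = T := by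
      intro s' hs'
      apply le_antisymm (len_le fr (h1 s'))
      refine len_ge fr (by omega) fun t ht => ?_
      have h4 : s t ≤ (Finset.range T).sup s := Finset.le_sup (Finset.mem_range.2 ht)
      exact cert_mono fr (by omega) (hs t ht)
    refine ⟨(Finset.range T).sup s + T, fun s' hs' => ?_⟩
    unfold GG
    rw [h3 s' hs', h3 _ le_rfl]
    rcases Nat.eq_zero_or_pos T with h4 | h4
    · simp [h4]
    · have h5 : cert fr e y (T - 1) ((Finset.range T).sup s + T) = true := by
        refine lt_len fr ?_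
        rw [h3 _ le_rfl]
        omega
      obtain ⟨v, hv, _⟩ := (cert_iff fr e y _ _).1 h5
      rw [hv, val_mono hs' hv]

theorem GG_appr (hfr : Computable₂ fr) : Appr (GG fr) := ⟨GG_comp fr hfr, GG_conv hwf hr⟩

/-- Every set with an `r`-descending approximation is a limit of the universal approximation. -/
theorem GG_univ (X : Set ℕ) (g : ℕ → ℕ → Bool) (o : ℕ → ℕ → ℕ) (hg : Computable₂ g)
    (ho : Computable₂ o) (hlim : ∀ x, ∃ s₀, ∀ s, s₀ ≤ s → (g x s = true ↔ x ∈ X))
    (hstep : ∀ x s, (o x (s + 1) = o x s ∧ g x (s + 1) = g x s) ∨ r (o x (s + 1)) (o x s)) :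
    ∃ e, ∀ y, ∃ s₀, ∀ s, s₀ ≤ s → (GG fr e y s = true ↔ y ∈ X) := by
  have h1 : Computable fun n : ℕ =>
      Nat.pair (cond (g n.unpair.1 n.unpair.2) 1 0) (o n.unpair.1 n.unpair.2) := by
    have hu1 : Computable fun n : ℕ => n.unpair.1 := Computable.fst.comp Computable.unpair
    have hu2 : Computable fun n : ℕ => n.unpair.2 := Computable.snd.comp Computable.unpair
    exact Primrec₂.natPair.to_comp.comp
      (Computable.cond (hg.comp hu1 hu2) (Computable.const 1) (Computable.const 0))
      (ho.comp hu1 hu2)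
  obtain ⟨c, hc⟩ := Code.exists_code.1 (Partrec.nat_iff.1 h1.partrec)
  refine ⟨Encodable.encode c, fun y => ?_⟩
  have hval : ∀ t, ∃ s, val (Encodable.encode c) y t s =
      some (Nat.pair (cond (g y t) 1 0) (o y t)) := by
    intro t
    have h2 : Nat.pair (cond (g y t) 1 0) (o y t) ∈ Code.eval c (Nat.pair y t) := by
      rw [hc]
      simp
    obtain ⟨k, hk⟩ := Code.evaln_complete.1 h2
    exact ⟨k, by unfold val; rw [Denumerable.ofNat_encode]; exact hk⟩
  have hcert : ∀ t, ∃ s, cert fr (Encodable.encode c) y t s = true := by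
    intro t
    obtain ⟨s₁, hs₁⟩ := hval t
    obtain ⟨s₂, hs₂⟩ := hval (t - 1)
    rcases Nat.eq_zero_or_pos t with ht | ht
    · exact ⟨s₁, (cert_iff _ _ _ _ _).2 ⟨_, hs₁, Or.inl ht⟩⟩
    · have h3 := hstep y (t - 1)
      have h4 : t - 1 + 1 = t := by omega
      rw [h4] at h3
      rcases h3 with ⟨h5, h6⟩ | h5
      · refine ⟨max s₁ s₂, (cert_iff _ _ _ _ _).2 ⟨_, val_mono (le_max_left _ _) hs₁,
          Or.inr ⟨_, val_mono (le_max_right _ _) hs₂, Or.inl (by rw [h5, h6])⟩⟩⟩
      · obtain ⟨n, hn⟩ := (hr (o y t, o y (t - 1))).1 h5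
        refine ⟨max (max s₁ s₂) (n + 1), (cert_iff _ _ _ _ _).2
          ⟨_, val_mono (by omega) hs₁, Or.inr ⟨_, val_mono (by omega) hs₂,
            Or.inr ⟨n, by omega, by simpa using hn⟩⟩⟩⟩
  obtain ⟨F, T, hF, hT, s₀, hs₀⟩ := GG_full hwf hr _ y hcert
  obtain ⟨s₁, hs₁⟩ := hlim y
  refine ⟨s₀, fun s hs => ?_⟩
  rw [hs₀ s hs, decide_eq_true_iff]
  have h2 : F (max T s₁) = Nat.pair (cond (g y (max T s₁)) 1 0) (o y (max T s₁)) := by
    obtain ⟨a, ha⟩ := hF (max T s₁)
    obtain ⟨b, hb⟩ := hval (max T s₁)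
    have h3 := val_mono (le_max_left a b) ha
    have h4 := val_mono (le_max_right a b) hb
    rw [h3] at h4
    exact Option.some.inj h4
  rw [← hT _ (le_max_left T s₁), h2, Nat.unpair_pair, ← hs₁ _ (le_max_right T s₁)]
  cases g y (max T s₁) <;> simp

end

end

end Pool.Agent.Lib.MP_3c695a_lc
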